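import Pool.Agent.H2.ED.Targets

set_option autoImplicit false

open MvPolynomial
open Pool.Agent.H12.ZD (pmap)
open Pool.Agent.H18.HIT Pool.Agent.H18.HX Pool.Agent.H18.VZ
open Pool.Agent.H8.TD (lc dg Wsp)
open Pool.Agent.H2.ED

namespace Pool.Agent.H20.ED

section

variable {ν : ℕ} {k : Type} [Field k]

/-- homogenisation with respect to `X 1` -/
noncomputable def hom1 (p : Po (ν + 2) k) : Po (ν + 2) k :=
  ∑ j ∈ Finset.range (p.totalDegree + 1), X 1 ^ (p.totalDegree - j) * homogeneousComponent j p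

theorem hom1_hom (p : Po (ν + 2) k) : (hom1 p).IsHomogeneous p.totalDegree := by
  unfold hom1
  apply IsHomogeneous.sum
  intro j hj
  have h1 : ((X 1 : Po (ν + 2) k) ^ (p.totalDegree - j)).IsHomogeneous (p.totalDegree - j) :=
    isHomogeneous_X_pow 1 _
  have h2 := h1.mul (homogeneousComponent_isHomogeneous j p)
  have h3 : p.totalDegree - j + j = p.totalDegree :=
    Nat.sub_add_cancel (Nat.lt_succ_iff.1 (Finset.mem_range.1 hj))
  rwa [h3] at h2

theorem aeval_hom1 {K : Type} [Field K] [Algebra k K] {ξ : Fin (ν + 2) → K} (h : ξ 1 = 1)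
    (p : Po (ν + 2) k) : aeval ξ (hom1 p) = aeval ξ p := by
  unfold hom1
  rw [map_sum]
  have h1 : ∀ j ∈ Finset.range (p.totalDegree + 1),
      aeval ξ (X 1 ^ (p.totalDegree - j) * homogeneousComponent j p) =
        aeval ξ (homogeneousComponent j p) := by
    intro j _
    rw [map_mul, map_pow, aeval_X, h, one_pow, one_mul]
  rw [Finset.sum_congr rfl h1, ← map_sum, sum_homogeneousComponent]

end

theorem pf_KSP : T_KSP := by
  intro ν r₀ r k K κ _ _ _ _ _ _ P V ξ η R ρ D hHyp hPV hHmi hGp hGv hL hne hD z hz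
  obtain ⟨p, q, hq, hpq⟩ := hL.frc z
  -- the product in the ring
  have hprod : z * ⟨aeval ξ q, hL.mem q⟩ = (⟨aeval ξ (hom1 p), hL.mem (hom1 p)⟩ : R) := by
    apply Subtype.ext
    change (z : K) * aeval ξ q = aeval ξ (hom1 p)
    rw [hpq, aeval_hom1 hGp.one]
  have hp0 : aeval η (hom1 p) = 0 := by
    have h1 := congrArg ρ hprod
    rw [map_mul, hz, zero_mul, hL.val] at h1
    exact h1.symm
  have hV : hom1 p ∈ V := (hGv.iff _ _ (hom1_hom p)).1 hp0
  refine ⟨hom1 p, hV, (aeval η q * aeval η (pderiv 0 P))⁻¹, ?_⟩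
  funext j
  rw [Pi.smul_apply, smul_eq_mul]
  have h2 : (D j ⟨aeval ξ (hom1 p), hL.mem (hom1 p)⟩) * ⟨aeval ξ (pderiv 0 P), hL.mem _⟩ =
      (⟨aeval ξ (dd P j.succ (hom1 p)), hL.mem _⟩ : R) :=
    Subtype.ext (hD j (hom1 p) (hL.mem (hom1 p)))
  have h3 := congrArg ρ h2
  rw [map_mul, hL.val, hL.val] at h3
  have h4 : ρ (D j ⟨aeval ξ (hom1 p), hL.mem (hom1 p)⟩) = aeval η q * ρ (D j z) := by
    rw [← hprod, Derivation.leibniz, map_add, smul_eq_mul, smul_eq_mul, map_mul, map_mul, hz,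
      zero_mul, zero_add, hL.val]
  rw [h4] at h3
  have h5 : gr P η (hom1 p) j = aeval η q * ρ (D j z) * aeval η (pderiv 0 P) := h3.symm
  rw [h5]
  have h6 : aeval η q * aeval η (pderiv 0 P) ≠ 0 := mul_ne_zero hq hne
  field_simp

end Pool.Agent.H20.ED
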